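import Mathlib
import Pool.Agent.H45.XR.Defs

/-!
# Project XR, module F1: a one-dimensional lemma

If `(f y - f x) ^ 2 ≤ (y - x) * (g y - g x)` with `g` monotone, then `f` is a Lipschitz function
of `x + g x`, hence almost all of its fibres are countable.
-/

set_option autoImplicit false

open MeasureTheory Set Filter Topology
open scoped Real ENNReal

namespace Pool.Agent.H94.XR

/-- Almost every value of a Lipschitz function on the line has a countable fibre. -/
lemma F1_lip {F : ℝ → ℝ} (hF : LipschitzWith 1 F) {a b : ℝ} (hab : a < b) :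
    ∃ d ∈ Ioo a b, {u | F u = d}.Countable := by
  classical
  set N : Set ℝ := {u | ¬ DifferentiableAt ℝ F u} with hN
  set Z : Set ℝ := {u | DifferentiableAt ℝ F u ∧ deriv F u = 0} with hZ
  have hN0 : volume N = 0 := by
    have := hF.ae_differentiableAt_real
    rw [ae_iff] at this
    exact this
  have hN1 : volume (F '' N) = 0 := by
    have h := hF.hausdorffMeasure_image_le (d := 1) zero_le_one N
    rw [hausdorffMeasure_real, hN0, mul_zero] at h
    exact le_antisymm h bot_le
  have hZ1 : volume (F '' Z) = 0 := by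
    apply addHaar_image_eq_zero_of_det_fderivWithin_eq_zero (f' := fun _ => (0 : ℝ →L[ℝ] ℝ)) volume
    · rintro x ⟨hx, hx'⟩
      have h1 := hx.hasDerivAt
      rw [hx'] at h1
      have h2 := h1.hasFDerivAt
      have h3 : ContinuousLinearMap.toSpanSingleton ℝ (0 : ℝ) = (0 : ℝ →L[ℝ] ℝ) := by
        ext
        simp
      rw [h3] at h2
      exact h2.hasFDerivWithinAt
    · intro x _
      simp [ContinuousLinearMap.det]
  have hpos : 0 < volume (Ioo a b \ (F '' N ∪ F '' Z)) := by
    have h1 : volume (F '' N ∪ F '' Z) = 0 := measure_union_null hN1 hZ1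
    rw [measure_sdiff_null h1, Real.volume_Ioo]
    simpa using hab
  obtain ⟨d, hd, hd'⟩ := nonempty_of_measure_ne_zero hpos.ne'
  refine ⟨d, hd, ?_⟩
  have hdisc : IsDiscrete {u | F u = d} := by
    rw [isDiscrete_iff_nhdsNE]
    intro u hu
    have hdu : DifferentiableAt ℝ F u := by
      by_contra h
      exact hd' (Or.inl ⟨u, h, hu⟩)
    have hdu' : deriv F u ≠ 0 := by
      intro h
      exact hd' (Or.inr ⟨u, ⟨hdu, h⟩, hu⟩)
    have h := hdu.hasDerivAt.eventually_ne (c := d) hdu'
    rw [← disjoint_iff]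
    rw [disjoint_principal_right]
    filter_upwards [h] with z hz using hz
  exact (HereditarilyLindelofSpace.isLindelof _).countable_of_isDiscrete hdisc

end Pool.Agent.H94.XR

namespace Pool.Agent.H45.XR

open Pool.Agent.H94.XR

/-- F1 : one-dimensional lemma -/
theorem countable_fiber {A : Set ℝ} {f g : ℝ → ℝ} {a b : ℝ} (hab : a < b)
    (hg : MonotoneOn g A) (hf : ∀ x ∈ A, ∀ y ∈ A, x ≤ y → (f y - f x) ^ 2 ≤ (y - x) * (g y - g x)) :
    ∃ d ∈ Ioo a b, {x ∈ A | f x = d}.Countable := by
  classical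
  set w : ℝ → ℝ := fun x => x + g x with hw
  have hwm : StrictMonoOn w A := by
    intro x hx y hy hxy
    have := hg hx hy hxy.le
    simp only [hw]
    linarith
  have hle : ∀ x ∈ A, ∀ y ∈ A, x ≤ y → |f y - f x| ≤ w y - w x := by
    intro x hx y hy hxy
    have h1 := hg hx hy hxy
    have h2 := hf x hx y hy hxy
    apply abs_le_of_sq_le_sq _ (by simp only [hw]; linarith)
    simp only [hw]
    nlinarith [sub_nonneg.2 h1, sub_nonneg.2 hxy]
  have hle' : ∀ x ∈ A, ∀ y ∈ A, |f y - f x| ≤ |w y - w x| := by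
    intro x hx y hy
    rcases le_total x y with h | h
    · exact (hle x hx y hy h).trans (le_abs_self _)
    · rw [abs_sub_comm (f y), abs_sub_comm (w y)]
      exact (hle y hy x hx h).trans (le_abs_self _)
  set F₀ : ℝ → ℝ := fun u => f (Function.invFunOn w A u) with hF₀
  have hF₀w : ∀ x ∈ A, F₀ (w x) = f x := by
    intro x hx
    simp only [hF₀]
    rw [hwm.injOn.leftInvOn_invFunOn hx]
  have hlip : LipschitzOnWith 1 F₀ (w '' A) := by
    apply LipschitzOnWith.of_dist_le_mul
    rintro _ ⟨x, hx, rfl⟩ _ ⟨y, hy, rfl⟩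
    rw [hF₀w x hx, hF₀w y hy, Real.dist_eq, Real.dist_eq]
    simpa using hle' y hy x hx
  obtain ⟨F, hF, hFe⟩ := hlip.extend_real
  obtain ⟨d, hd, hdc⟩ := F1_lip hF hab
  refine ⟨d, hd, ?_⟩
  apply Set.MapsTo.countable_of_injOn (f := w) (t := {u | F u = d}) _
    (hwm.injOn.mono (fun x hx => hx.1)) hdc
  rintro x ⟨hx, hxd⟩
  simp only [mem_ofPred_eq]
  rw [← hFe ⟨x, hx, rfl⟩, hF₀w x hx, hxd]

end Pool.Agent.H45.XR
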