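import Mathlib
import Pool.Agent.H45.XR.Defs

/-!
# Project XR, module F2: the modulus of continuity of critical triangles

The function `s h`, the supremum of `sqrt (a * b)` over the horizontal segments of length `a` of the
section at height `h` and over the distances `b` from such a segment to a point below it, is concave.
At a critical triangle it is equal to `sqrt (lam * X)`.
-/

set_option autoImplicit false

open MeasureTheory Set Filter Topology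
open scoped Real ENNReal

namespace Pool.Agent.H94.XR

open Pool.Agent.H45.XR

lemma tc_rot (φ ψ : ℝ) (z : ℂ) :
    tc φ z = Real.cos (φ - ψ) * tc ψ z - Real.sin (φ - ψ) * yc ψ z := by
  have h := Real.sin_sq_add_cos_sq ψ
  simp only [tc, yc, Real.cos_sub, Real.sin_sub]
  linear_combination (Real.sin φ * z.re - Real.cos φ * z.im) * h

lemma abs_tc_le (φ : ℝ) (z : ℂ) : |tc φ z| ≤ ‖z‖ := by
  apply abs_le_of_sq_le_sq _ (norm_nonneg _)
  rw [← Complex.normSq_eq_norm_sq, Complex.normSq_apply]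
  have h := Real.sin_sq_add_cos_sq φ
  have : z.re * z.re + z.im * z.im - tc φ z ^ 2 = yc φ z ^ 2 := by
    simp only [tc, yc]
    linear_combination (-(z.re * z.re + z.im * z.im)) * h
  nlinarith [sq_nonneg (yc φ z)]

lemma abs_yc_le (φ : ℝ) (z : ℂ) : |yc φ z| ≤ ‖z‖ := by
  apply abs_le_of_sq_le_sq _ (norm_nonneg _)
  rw [← Complex.normSq_eq_norm_sq, Complex.normSq_apply]
  have h := Real.sin_sq_add_cos_sq φ
  have : z.re * z.re + z.im * z.im - yc φ z ^ 2 = tc φ z ^ 2 := by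
    simp only [tc, yc]
    linear_combination (-(z.re * z.re + z.im * z.im)) * h
  nlinarith [sq_nonneg (tc φ z)]

/-- The data of a critical triangle in the coordinates `tc φ₀`, `yc φ₀`. -/
lemma crit_data {K : Set (ℂ × ℝ)} {φ : Fin 3 → ℝ} {h φ₀ : ℝ} (h0 : φ 0 = φ₀)
    (ho : φ 0 < φ 1 ∧ φ 1 < φ 2 ∧ φ 2 < φ 0 + π) (hc : Crit K φ h) :
    ∃ l X : ℝ, 0 < l ∧ 0 < X ∧ Real.cot (φ 1 - φ₀) - Real.cot (φ 2 - φ₀) = l / X ∧
      (∃ z₁ ∈ sec K h, ∃ z₂ ∈ sec K h, ∃ p ∈ sec K h, tc φ₀ z₁ = tc φ₀ z₂ ∧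
        yc φ₀ z₁ - yc φ₀ z₂ = l ∧ tc φ₀ z₁ - tc φ₀ p = X) ∧
      (∀ z₁ ∈ sec K h, ∀ z₂ ∈ sec K h, ∀ p ∈ sec K h, tc φ₀ z₁ = tc φ₀ z₂ →
        0 ≤ yc φ₀ z₁ - yc φ₀ z₂ → 0 ≤ tc φ₀ z₁ - tc φ₀ p →
        (yc φ₀ z₁ - yc φ₀ z₂) * (tc φ₀ z₁ - tc φ₀ p) ≤ l * X) ∧
      (∀ z ∈ sec K h, ∀ z' ∈ sec K h, tc φ₀ z - tc φ₀ z' ≤ 2 * X) := by
  obtain ⟨p0, hp0, p2, hp2, p4, hp4, ⟨s0, hs0, e0⟩, ⟨s1, hs1, e1⟩, ⟨s2, hs2, e2⟩, m0, m1, m2⟩ := hc
  obtain ⟨o1, o2, o3⟩ := ho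
  rw [h0] at e0 m0 o1 o3
  have hsa : 0 < Real.sin (φ 1 - φ₀) := Real.sin_pos_of_pos_of_lt_pi (by linarith) (by linarith)
  have hsc : 0 < Real.sin (φ 2 - φ₀) := Real.sin_pos_of_pos_of_lt_pi (by linarith) (by linarith)
  set sa := Real.sin (φ 1 - φ₀) with hsa'
  set ca := Real.cos (φ 1 - φ₀) with hca'
  set sc := Real.sin (φ 2 - φ₀) with hsc'
  set cc := Real.cos (φ 2 - φ₀) with hcc'
  have t24 : tc φ₀ p2 = tc φ₀ p4 := by rw [e0, tc_add, tc_mul, tc_e_self]; ring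
  have y24 : yc φ₀ p2 = yc φ₀ p4 + s0 := by rw [e0, yc_add, yc_mul, yc_e_self]; ring
  have t20 : tc φ₀ p2 = tc φ₀ p0 + s1 * sa := by rw [e1, tc_add, tc_mul, tc_e]
  have y20 : yc φ₀ p2 = yc φ₀ p0 + s1 * ca := by rw [e1, yc_add, yc_mul, yc_e]
  have t40 : tc φ₀ p4 = tc φ₀ p0 + s2 * sc := by rw [e2, tc_add, tc_mul, tc_e]
  have y40 : yc φ₀ p4 = yc φ₀ p0 + s2 * cc := by rw [e2, yc_add, yc_mul, yc_e]
  have hXX : s1 * sa = s2 * sc := by linarith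
  have hX : 0 < s1 * sa := mul_pos hs1 hsa
  have hD : ca / sa - cc / sc = s0 / (s1 * sa) := by
    have h1 : ca / sa = s1 * ca / (s1 * sa) := by field_simp
    have h2 : cc / sc = s2 * cc / (s1 * sa) := by rw [hXX]; field_simp
    rw [h1, h2, ← sub_div]
    congr 1
    linarith
  -- the two support lines
  have low : ∀ z ∈ sec K h, yc φ₀ p4 + ca / sa * (tc φ₀ z - tc φ₀ p4) ≤ yc φ₀ z := by
    intro z hz
    have h1 := m1 z hz
    rw [tc_rot (φ 1) φ₀ z, tc_rot (φ 1) φ₀ p4] at h1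
    have h2 : ca * (tc φ₀ z - tc φ₀ p4) ≤ sa * (yc φ₀ z - yc φ₀ p4) := by linarith
    have h3 : ca / sa * (tc φ₀ z - tc φ₀ p4) ≤ yc φ₀ z - yc φ₀ p4 := by
      rw [div_mul_eq_mul_div, div_le_iff₀ hsa]
      linarith
    linarith
  have upp : ∀ z ∈ sec K h, yc φ₀ z ≤ yc φ₀ p2 + cc / sc * (tc φ₀ z - tc φ₀ p2) := by
    intro z hz
    have h1 := m2 z hz
    rw [tc_rot (φ 2) φ₀ z, tc_rot (φ 2) φ₀ p2] at h1
    have h2 : sc * (yc φ₀ z - yc φ₀ p2) ≤ cc * (tc φ₀ z - tc φ₀ p2) := by linarith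
    have h3 : yc φ₀ z - yc φ₀ p2 ≤ cc / sc * (tc φ₀ z - tc φ₀ p2) := by
      rw [div_mul_eq_mul_div, le_div_iff₀ hsc]
      linarith
    linarith
  have len : ∀ z₁ ∈ sec K h, ∀ z₂ ∈ sec K h, tc φ₀ z₁ = tc φ₀ z₂ →
      yc φ₀ z₁ - yc φ₀ z₂ ≤ s0 - s0 / (s1 * sa) * (tc φ₀ z₁ - tc φ₀ p0 - s1 * sa) := by
    intro z₁ hz₁ z₂ hz₂ ht
    have h1 := upp z₁ hz₁
    have h2 := low z₂ hz₂
    rw [← ht, ← t24] at h2
    rw [← hD, show tc φ₀ z₁ - tc φ₀ p0 - s1 * sa = tc φ₀ z₁ - tc φ₀ p2 by linarith]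
    linarith
  refine ⟨s0, s1 * sa, hs0, hX, ?_, ⟨p2, hp2, p4, hp4, p0, hp0, t24, by linarith, by linarith⟩,
    ?_, ?_⟩
  · rw [Real.cot_eq_cos_div_sin, Real.cot_eq_cos_div_sin]
    exact hD
  · intro z₁ hz₁ z₂ hz₂ p hp ht hy htp
    have h1 := len z₁ hz₁ z₂ hz₂ ht
    have h2 := m0 p hp
    set x := tc φ₀ z₁ - tc φ₀ p0 with hx
    set X := s1 * sa with hXd
    have h3 : tc φ₀ z₁ - tc φ₀ p ≤ x := by linarith
    have h4 : 0 ≤ x := htp.trans h3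
    calc (yc φ₀ z₁ - yc φ₀ z₂) * (tc φ₀ z₁ - tc φ₀ p)
        ≤ (yc φ₀ z₁ - yc φ₀ z₂) * x := mul_le_mul_of_nonneg_left h3 hy
      _ ≤ (s0 - s0 / X * (x - X)) * x := mul_le_mul_of_nonneg_right h1 h4
      _ = s0 * X - s0 / X * (X - x) ^ 2 := by field_simp; ring
      _ ≤ s0 * X := by
        have : 0 ≤ s0 / X * (X - x) ^ 2 := by positivity
        linarith
  · intro z hz z' hz'
    have h1 := len z hz z hz rfl
    have h2 := m0 z' hz'
    set X := s1 * sa with hXd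
    have h3 : 0 ≤ s0 / X * (2 * X - (tc φ₀ z - tc φ₀ p0)) := by
      have : s0 / X * (2 * X - (tc φ₀ z - tc φ₀ p0)) =
          s0 - s0 / X * (tc φ₀ z - tc φ₀ p0 - X) := by field_simp; ring
      rw [this]
      linarith
    have h4 : 0 ≤ 2 * X - (tc φ₀ z - tc φ₀ p0) := by
      have h5 : 0 < s0 / X := div_pos hs0 hX
      exact nonneg_of_mul_nonneg_right h3 h5
    linarith

/-- The values whose supremum is `sV`. -/
def VV (K : Set (ℂ × ℝ)) (φ₀ h : ℝ) : Set ℝ :=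
  {r | ∃ z₁ ∈ sec K h, ∃ z₂ ∈ sec K h, ∃ p ∈ sec K h, tc φ₀ z₁ = tc φ₀ z₂ ∧
    0 ≤ yc φ₀ z₁ - yc φ₀ z₂ ∧ 0 ≤ tc φ₀ z₁ - tc φ₀ p ∧
    r = Real.sqrt ((yc φ₀ z₁ - yc φ₀ z₂) * (tc φ₀ z₁ - tc φ₀ p))}

lemma VV_bdd {K : Set (ℂ × ℝ)} (hK : Body3 K) : ∃ R : ℝ, 0 < R ∧
    ∀ (φ₀ h r : ℝ), r ∈ VV K φ₀ h → r ≤ R := by
  obtain ⟨R, hR⟩ := hK.cpt.isBounded.exists_norm_le
  have hR' : ∀ h : ℝ, ∀ z ∈ sec K h, ‖z‖ ≤ |R| := fun h z hz =>
    ((le_max_left _ _).trans (hR _ hz)).trans (le_abs_self _)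
  refine ⟨2 * |R| + 1, by positivity, ?_⟩
  rintro φ₀ h r ⟨z₁, hz₁, z₂, hz₂, p, hp, -, h1, h2, rfl⟩
  have a1 := abs_le.1 ((abs_yc_le φ₀ z₁).trans (hR' h _ hz₁))
  have a2 := abs_le.1 ((abs_yc_le φ₀ z₂).trans (hR' h _ hz₂))
  have a3 := abs_le.1 ((abs_tc_le φ₀ z₁).trans (hR' h _ hz₁))
  have a4 := abs_le.1 ((abs_tc_le φ₀ p).trans (hR' h _ hp))
  rw [Real.sqrt_le_left (by positivity)]
  have b1 : yc φ₀ z₁ - yc φ₀ z₂ ≤ 2 * |R| + 1 := by linarith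
  have b2 : tc φ₀ z₁ - tc φ₀ p ≤ 2 * |R| + 1 := by linarith
  rw [sq]
  exact mul_le_mul b1 b2 h2 (by positivity)

lemma VV_zero {K : Set (ℂ × ℝ)} {φ₀ h : ℝ} (hh : h ∈ Hts K) : 0 ∈ VV K φ₀ h := by
  obtain ⟨z, hz⟩ := hh
  have hz' : z ∈ sec K h := (interior_subset hz : (z, h) ∈ K)
  exact ⟨z, hz', z, hz', z, hz', rfl, by simp, by simp, by simp⟩

lemma Hts_convex {K : Set (ℂ × ℝ)} (hK : Body3 K) : Convex ℝ (Hts K) := by
  have h1 : Hts K = (LinearMap.snd ℝ ℂ ℝ) '' interior K := by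
    ext h
    constructor
    · rintro ⟨z, hz⟩
      exact ⟨(z, h), hz, rfl⟩
    · rintro ⟨⟨z, h'⟩, hz, rfl⟩
      exact ⟨z, hz⟩
  rw [h1]
  exact hK.conv.interior.linear_image _

lemma Hts_open (K : Set (ℂ × ℝ)) : IsOpen (Hts K) := by
  have h1 : Hts K = Prod.snd '' interior K := by
    ext h
    constructor
    · rintro ⟨z, hz⟩
      exact ⟨(z, h), hz, rfl⟩
    · rintro ⟨⟨z, h'⟩, hz, rfl⟩
      exact ⟨z, hz⟩
  rw [h1]
  exact isOpenMap_snd _ isOpen_interior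

/-- Convex combinations of points of sections. -/
lemma sec_combo {K : Set (ℂ × ℝ)} (hK : Body3 K) {h h' u v : ℝ} (hu : 0 ≤ u) (hv : 0 ≤ v)
    (huv : u + v = 1) {z z' : ℂ} (hz : z ∈ sec K h) (hz' : z' ∈ sec K h') :
    (u : ℂ) * z + (v : ℂ) * z' ∈ sec K (u * h + v * h') := by
  have := hK.conv hz hz' hu hv huv
  simpa [sec] using this

/-- superadditivity of the geometric mean -/
lemma gm_le {a b a' b' u v : ℝ} (ha : 0 ≤ a) (hb : 0 ≤ b) (ha' : 0 ≤ a') (hb' : 0 ≤ b')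
    (hu : 0 ≤ u) (hv : 0 ≤ v) :
    u * Real.sqrt (a * b) + v * Real.sqrt (a' * b') ≤
      Real.sqrt ((u * a + v * a') * (u * b + v * b')) := by
  apply Real.le_sqrt_of_sq_le
  rw [Real.sqrt_mul ha, Real.sqrt_mul ha']
  have e1 := Real.sq_sqrt ha
  have e2 := Real.sq_sqrt hb
  have e3 := Real.sq_sqrt ha'
  have e4 := Real.sq_sqrt hb'
  set p := Real.sqrt a
  set q := Real.sqrt b
  set p' := Real.sqrt a'
  set q' := Real.sqrt b'
  have h1 : 0 ≤ u * v * (p * q' - p' * q) ^ 2 := by positivity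
  rw [← e1, ← e2, ← e3, ← e4]
  nlinarith [h1]

/-- The concave function. -/
noncomputable def sV (K : Set (ℂ × ℝ)) (φ₀ h : ℝ) : ℝ := sSup (VV K φ₀ h)

lemma VV_bddAbove {K : Set (ℂ × ℝ)} (hK : Body3 K) (φ₀ h : ℝ) : BddAbove (VV K φ₀ h) := by
  obtain ⟨R, -, hR⟩ := VV_bdd hK
  exact ⟨R, fun r hr => hR φ₀ h r hr⟩

lemma VV_combo {K : Set (ℂ × ℝ)} (hK : Body3 K) {φ₀ h h' u v : ℝ} (hu : 0 ≤ u) (hv : 0 ≤ v)
    (huv : u + v = 1) {r r' : ℝ} (hr : r ∈ VV K φ₀ h) (hr' : r' ∈ VV K φ₀ h') :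
    ∃ r'' ∈ VV K φ₀ (u * h + v * h'), u * r + v * r' ≤ r'' := by
  obtain ⟨z₁, hz₁, z₂, hz₂, p, hp, h1, h2, h3, rfl⟩ := hr
  obtain ⟨z₁', hz₁', z₂', hz₂', p', hp', h1', h2', h3', rfl⟩ := hr'
  refine ⟨_, ⟨_, sec_combo hK hu hv huv hz₁ hz₁', _, sec_combo hK hu hv huv hz₂ hz₂', _,
    sec_combo hK hu hv huv hp hp', ?_, ?_, ?_, rfl⟩, ?_⟩
  · simp only [tc_add, tc_mul]
    rw [h1, h1']
  · simp only [yc_add, yc_mul]
    nlinarith [mul_nonneg hu h2, mul_nonneg hv h2']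
  · simp only [tc_add, tc_mul]
    nlinarith [mul_nonneg hu h3, mul_nonneg hv h3']
  · refine (gm_le h2 h3 h2' h3' hu hv).trans (le_of_eq ?_)
    congr 1
    simp only [tc_add, tc_mul, yc_add, yc_mul]
    ring

lemma sV_concave {K : Set (ℂ × ℝ)} (hK : Body3 K) (φ₀ : ℝ) : ConcaveOn ℝ (Hts K) (sV K φ₀) := by
  refine ⟨Hts_convex hK, ?_⟩
  intro h hh h' hh' u v hu hv huv
  simp only [smul_eq_mul]
  have key : ∀ r ∈ VV K φ₀ h, ∀ r' ∈ VV K φ₀ h', u * r + v * r' ≤ sV K φ₀ (u * h + v * h') := by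
    intro r hr r' hr'
    obtain ⟨r'', hr'', hle⟩ := VV_combo hK hu hv huv hr hr'
    exact hle.trans (le_csSup (VV_bddAbove hK _ _) hr'')
  have k1 : ∀ r' ∈ VV K φ₀ h', u * sV K φ₀ h + v * r' ≤ sV K φ₀ (u * h + v * h') := by
    intro r' hr'
    rcases hu.eq_or_lt with rfl | hu0
    · have := key 0 (VV_zero hh) r' hr'
      simpa using this
    · have h5 : sV K φ₀ h ≤ (sV K φ₀ (u * h + v * h') - v * r') / u := by
        apply csSup_le ⟨0, VV_zero hh⟩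
        intro r hr
        rw [le_div_iff₀ hu0]
        have := key r hr r' hr'
        linarith
      rw [le_div_iff₀ hu0] at h5
      linarith
  rcases hv.eq_or_lt with rfl | hv0
  · have := k1 0 (VV_zero hh')
    simpa using this
  · have h5 : sV K φ₀ h' ≤ (sV K φ₀ (u * h + v * h') - u * sV K φ₀ h) / v := by
      apply csSup_le ⟨0, VV_zero hh'⟩
      intro r hr
      rw [le_div_iff₀ hv0]
      have := k1 r hr
      linarith
    rw [le_div_iff₀ hv0] at h5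
    linarith

/-- Sections over a compact subinterval of `Hts K` have uniformly positive width. -/
lemma width_lower {K : Set (ℂ × ℝ)} (hK : Body3 K) {φ₀ a b : ℝ} (hab : Icc a b ⊆ Hts K) :
    ∃ c : ℝ, 0 < c ∧ ∀ h ∈ Icc a b, ∃ z ∈ sec K h, ∃ z' ∈ sec K h,
      2 * c ≤ tc φ₀ z - tc φ₀ z' := by
  have loc : ∀ h ∈ Hts K, ∃ w : ℝ, 0 < w ∧ ∃ z ∈ sec K h, ∃ z' ∈ sec K h,
      w ≤ tc φ₀ z - tc φ₀ z' := by
    rintro h ⟨z, hz⟩
    have hcont : Continuous (fun s : ℝ => ((z + (s : ℂ) * (Complex.I * e φ₀), h) : ℂ × ℝ)) := by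
      fun_prop
    have hnear : ∀ᶠ s : ℝ in 𝓝 0, ((z + (s : ℂ) * (Complex.I * e φ₀), h) : ℂ × ℝ) ∈ interior K := by
      apply hcont.continuousAt.eventually
      apply isOpen_interior.mem_nhds
      simpa using hz
    obtain ⟨s, hs, hs0⟩ := ((hnear.filter_mono nhdsWithin_le_nhds).and
      (self_mem_nhdsWithin : Ioi (0 : ℝ) ∈ 𝓝[>] 0)).exists
    refine ⟨s, hs0, z + (s : ℂ) * (Complex.I * e φ₀),
      (interior_subset hs : (z + (s : ℂ) * (Complex.I * e φ₀), h) ∈ K), z,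
      (interior_subset hz : (z, h) ∈ K), ?_⟩
    have h1 : tc φ₀ (Complex.I * e φ₀) = 1 := by
      have := Real.sin_sq_add_cos_sq φ₀
      simp only [tc, Complex.mul_re, Complex.mul_im, Complex.I_re, Complex.I_im, e_re, e_im]
      nlinarith
    rw [tc_add, tc_mul, h1]
    linarith
  rcases lt_or_ge b a with hba | hba
  · exact ⟨1, one_pos, fun h hh => absurd (hh.1.trans hh.2) (not_le.2 hba)⟩
  obtain ⟨w, hw0, z, hz, z', hz', hzz⟩ := loc a (hab (left_mem_Icc.2 hba))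
  obtain ⟨w', hw0', y, hy, y', hy', hyy⟩ := loc b (hab (right_mem_Icc.2 hba))
  refine ⟨min w w' / 2, by positivity, ?_⟩
  intro h hh
  obtain ⟨u, v, hu, hv, huv, rfl⟩ : ∃ u v : ℝ, 0 ≤ u ∧ 0 ≤ v ∧ u + v = 1 ∧ u * a + v * b = h := by
    have : h ∈ segment ℝ a b := by rw [segment_eq_Icc hba]; exact hh
    obtain ⟨u, v, hu, hv, huv, h1⟩ := this
    exact ⟨u, v, hu, hv, huv, h1⟩
  refine ⟨_, sec_combo hK hu hv huv hz hy, _, sec_combo hK hu hv huv hz' hy', ?_⟩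
  simp only [tc_add, tc_mul]
  have h1 : min w w' ≤ tc φ₀ z - tc φ₀ z' := (min_le_left _ _).trans hzz
  have h2 : min w w' ≤ tc φ₀ y - tc φ₀ y' := (min_le_right _ _).trans hyy
  have h3 : u * min w w' + v * min w w' = min w w' := by rw [← add_mul, huv, one_mul]
  nlinarith [mul_le_mul_of_nonneg_left h1 hu, mul_le_mul_of_nonneg_left h2 hv]

/-- The algebraic identity behind `crit_modulus`. -/
lemma crit_alg {l X l' X' : ℝ} (hl : 0 < l) (hX : 0 < X) (hl' : 0 < l') (hX' : 0 < X') :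
    X * X' * (Real.sqrt (l' / X') - Real.sqrt (l / X)) ^ 2 =
      4 * ((1 / 2 * l + 1 / 2 * l') * (1 / 2 * X + 1 / 2 * X')) -
        (Real.sqrt (l * X) + Real.sqrt (l' * X')) ^ 2 := by
  have e1 := Real.sq_sqrt hl.le
  have e2 := Real.sq_sqrt hX.le
  have e3 := Real.sq_sqrt hl'.le
  have e4 := Real.sq_sqrt hX'.le
  have p1 := Real.sqrt_pos.2 hl
  have p2 := Real.sqrt_pos.2 hX
  have p3 := Real.sqrt_pos.2 hl'
  have p4 := Real.sqrt_pos.2 hX'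
  rw [Real.sqrt_div hl.le, Real.sqrt_div hl'.le, Real.sqrt_mul hl.le, Real.sqrt_mul hl'.le]
  set a := Real.sqrt l
  set b := Real.sqrt X
  set a' := Real.sqrt l'
  set b' := Real.sqrt X'
  rw [← e1, ← e2, ← e3, ← e4]
  field_simp
  ring

end Pool.Agent.H94.XR

namespace Pool.Agent.H45.XR

open Pool.Agent.H94.XR

/-- F2 : concavity and the modulus of continuity of the square root of the slope difference
`cot (φ 1 - φ 0) - cot (φ 2 - φ 0)` of a critical triangle, as a function of its height. -/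
theorem crit_modulus {K : Set (ℂ × ℝ)} (hK : Body3 K) {φ₀ a b : ℝ} (hab : Icc a b ⊆ Hts K) :
    ∃ g : ℝ → ℝ, MonotoneOn g (Icc a b) ∧
      ∀ h ∈ Icc a b, ∀ h' ∈ Icc a b, h ≤ h' → ∀ φ φ' : Fin 3 → ℝ, φ 0 = φ₀ → φ' 0 = φ₀ →
      (φ 0 < φ 1 ∧ φ 1 < φ 2 ∧ φ 2 < φ 0 + π) → (φ' 0 < φ' 1 ∧ φ' 1 < φ' 2 ∧ φ' 2 < φ' 0 + π) →
      Crit K φ h → Crit K φ' h' →
      (Real.sqrt (Real.cot (φ' 1 - φ₀) - Real.cot (φ' 2 - φ₀)) -
        Real.sqrt (Real.cot (φ 1 - φ₀) - Real.cot (φ 2 - φ₀))) ^ 2 ≤ (h' - h) * (g h' - g h) := by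
  obtain ⟨R, hR0, hR⟩ := VV_bdd hK
  obtain ⟨c, hc0, hc⟩ := width_lower hK (φ₀ := φ₀) hab
  have hf : ConvexOn ℝ (Hts K) (-(sV K φ₀)) := (sV_concave hK φ₀).neg
  set r : ℝ → ℝ := fun x => derivWithin (-(sV K φ₀)) (Ioi x) x with hr
  have hint : interior (Hts K) = Hts K := (Hts_open K).interior_eq
  have hrm : MonotoneOn r (Icc a b) := by
    have := hf.monotoneOn_rightDeriv
    rw [hint] at this
    exact this.mono hab
  refine ⟨fun x => (4 * R / c ^ 2) * r x, ?_, ?_⟩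
  · intro x hx y hy hxy
    exact mul_le_mul_of_nonneg_left (hrm hx hy hxy) (by positivity)
  intro h hh h' hh' hle φ φ' e0 e0' ho ho' hcr hcr'
  obtain ⟨l, X, hl, hX, hD, ⟨z₁, hz₁, z₂, hz₂, p, hp, k1, k2, k3⟩, hmax, hw⟩ := crit_data e0 ho hcr
  obtain ⟨l', X', hl', hX', hD', ⟨z₁', hz₁', z₂', hz₂', p', hp', k1', k2', k3'⟩, hmax', hw'⟩ :=
    crit_data e0' ho' hcr'
  rw [hD, hD']
  have hA : sV K φ₀ h = Real.sqrt (l * X) := by
    apply le_antisymm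
    · apply csSup_le ⟨0, VV_zero (hab hh)⟩
      rintro _ ⟨w₁, hw₁, w₂, hw₂, q, hq, m1, m2, m3, rfl⟩
      exact Real.sqrt_le_sqrt (hmax w₁ hw₁ w₂ hw₂ q hq m1 m2 m3)
    · apply le_csSup (VV_bddAbove hK _ _)
      exact ⟨z₁, hz₁, z₂, hz₂, p, hp, k1, by rw [k2]; exact hl.le, by rw [k3]; exact hX.le,
        by rw [k2, k3]⟩
  have hB : sV K φ₀ h' = Real.sqrt (l' * X') := by
    apply le_antisymm
    · apply csSup_le ⟨0, VV_zero (hab hh')⟩
      rintro _ ⟨w₁, hw₁, w₂, hw₂, q, hq, m1, m2, m3, rfl⟩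
      exact Real.sqrt_le_sqrt (hmax' w₁ hw₁ w₂ hw₂ q hq m1 m2 m3)
    · apply le_csSup (VV_bddAbove hK _ _)
      exact ⟨z₁', hz₁', z₂', hz₂', p', hp', k1', by rw [k2']; exact hl'.le,
        by rw [k3']; exact hX'.le, by rw [k2', k3']⟩
  set m : ℝ := 1 / 2 * h + 1 / 2 * h' with hm
  have hmH : m ∈ Hts K := hab ⟨by linarith [hh.1, hh'.1], by linarith [hh.2, hh'.2]⟩
  have hM : Real.sqrt ((1 / 2 * l + 1 / 2 * l') * (1 / 2 * X + 1 / 2 * X')) ≤ sV K φ₀ m := by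
    apply le_csSup (VV_bddAbove hK _ _)
    have t : ((1 / 2 : ℝ) : ℝ) + 1 / 2 = 1 := by norm_num
    refine ⟨_, sec_combo hK (by norm_num) (by norm_num) t hz₁ hz₁', _,
      sec_combo hK (by norm_num) (by norm_num) t hz₂ hz₂', _,
      sec_combo hK (by norm_num) (by norm_num) t hp hp', ?_, ?_, ?_, ?_⟩
    · simp only [tc_add, tc_mul]
      rw [k1, k1']
    · simp only [yc_add, yc_mul]
      linarith
    · simp only [tc_add, tc_mul]
      linarith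
    · congr 1
      simp only [tc_add, tc_mul, yc_add, yc_mul]
      rw [← k2, ← k2', ← k3, ← k3']
      ring
  have hAR : sV K φ₀ h ≤ R := csSup_le ⟨0, VV_zero (hab hh)⟩ (fun r hr => hR φ₀ h r hr)
  have hBR : sV K φ₀ h' ≤ R := csSup_le ⟨0, VV_zero (hab hh')⟩ (fun r hr => hR φ₀ h' r hr)
  have hMR : sV K φ₀ m ≤ R := csSup_le ⟨0, VV_zero hmH⟩ (fun r hr => hR φ₀ m r hr)
  have hA0 : 0 ≤ sV K φ₀ h := by rw [hA]; exact Real.sqrt_nonneg _
  have hB0 : 0 ≤ sV K φ₀ h' := by rw [hB]; exact Real.sqrt_nonneg _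
  have hM0 : 0 ≤ sV K φ₀ m := (Real.sqrt_nonneg _).trans hM
  have hcX : c ≤ X := by
    obtain ⟨z, hz, z', hz', hzz⟩ := hc h hh
    have := hw z hz z' hz'
    linarith
  have hcX' : c ≤ X' := by
    obtain ⟨z, hz, z', hz', hzz⟩ := hc h' hh'
    have := hw' z hz z' hz'
    linarith
  have hsq : (1 / 2 * l + 1 / 2 * l') * (1 / 2 * X + 1 / 2 * X') ≤ sV K φ₀ m ^ 2 := by
    have h1 : 0 ≤ (1 / 2 * l + 1 / 2 * l') * (1 / 2 * X + 1 / 2 * X') := by positivity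
    calc (1 / 2 * l + 1 / 2 * l') * (1 / 2 * X + 1 / 2 * X')
        = Real.sqrt ((1 / 2 * l + 1 / 2 * l') * (1 / 2 * X + 1 / 2 * X')) ^ 2 :=
          (Real.sq_sqrt h1).symm
      _ ≤ sV K φ₀ m ^ 2 := by gcongr
  -- the midpoint estimate by right derivatives
  have hmid : 2 * sV K φ₀ m - (sV K φ₀ h + sV K φ₀ h') ≤ (h' - h) / 2 * (r h' - r h) := by
    rcases hle.eq_or_lt with heq | hlt
    · have hm' : m = h := by rw [hm, ← heq]; ring
      rw [hm', ← heq]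
      apply le_of_eq
      ring
    · have hhm : h < m := by rw [hm]; linarith
      have hmh' : m < h' := by rw [hm]; linarith
      have s1 : r h ≤ slope (-(sV K φ₀)) h m :=
        hf.rightDeriv_le_slope_of_mem_interior (by rw [hint]; exact hab hh) hmH hhm
      have s2 : slope (-(sV K φ₀)) m h' ≤ r h' :=
        (hf.slope_le_leftDeriv_of_mem_interior hmH (by rw [hint]; exact hab hh') hmh').trans
          (hf.leftDeriv_le_rightDeriv_of_mem_interior (by rw [hint]; exact hab hh'))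
      rw [slope_def_field, le_div_iff₀ (by linarith)] at s1
      rw [slope_def_field, div_le_iff₀ (by linarith)] at s2
      simp only [Pi.neg_apply] at s1 s2
      have e1 : m - h = (h' - h) / 2 := by rw [hm]; ring
      have e2 : h' - m = (h' - h) / 2 := by rw [hm]; ring
      rw [e1] at s1
      rw [e2] at s2
      linarith
  set A := sV K φ₀ h
  set B := sV K φ₀ h'
  set M := sV K φ₀ m
  have halg := crit_alg hl hX hl' hX'
  rw [← hA, ← hB] at halg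
  set Q := (Real.sqrt (l' / X') - Real.sqrt (l / X)) ^ 2 with hQ
  have hQ0 : 0 ≤ Q := sq_nonneg _
  have h1 : c ^ 2 * Q ≤ X * X' * Q := by
    apply mul_le_mul_of_nonneg_right _ hQ0
    rw [sq]
    exact mul_le_mul hcX hcX' hc0.le hX.le
  have h2 : X * X' * Q ≤ (2 * M - (A + B)) * (2 * M + (A + B)) := by
    have e : (2 * M - (A + B)) * (2 * M + (A + B)) = 4 * M ^ 2 - (A + B) ^ 2 := by ring
    rw [halg, e]
    exact sub_le_sub_right (mul_le_mul_of_nonneg_left hsq (by norm_num)) _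
  have h3 : 0 ≤ (2 * M - (A + B)) * (2 * M + (A + B)) :=
    (mul_nonneg (mul_nonneg hX.le hX'.le) hQ0).trans h2
  have h4 : 0 ≤ (h' - h) / 2 * (r h' - r h) :=
    mul_nonneg (by linarith) (sub_nonneg.2 (hrm hh hh' hle))
  have h5 : (2 * M - (A + B)) * (2 * M + (A + B)) ≤ (h' - h) / 2 * (r h' - r h) * (4 * R) + 0 := by
    have h6 : 0 ≤ 2 * M + (A + B) := by linarith
    have h7 : 2 * M + (A + B) ≤ 4 * R := by linarith
    calc (2 * M - (A + B)) * (2 * M + (A + B))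
        ≤ ((h' - h) / 2 * (r h' - r h)) * (2 * M + (A + B)) :=
          mul_le_mul_of_nonneg_right hmid h6
      _ ≤ ((h' - h) / 2 * (r h' - r h)) * (4 * R) := mul_le_mul_of_nonneg_left h7 h4
      _ = _ := by ring
  have h8 : c ^ 2 * Q ≤ (h' - h) / 2 * (r h' - r h) * (4 * R) := by linarith
  have h9 : (h' - h) * (4 * R / c ^ 2 * r h' - 4 * R / c ^ 2 * r h) =
      ((h' - h) * (r h' - r h) * (4 * R)) / c ^ 2 := by ring
  simp only
  rw [h9, le_div_iff₀ (by positivity)]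
  have h10 : 0 ≤ (h' - h) / 2 * (r h' - r h) * (4 * R) := mul_nonneg h4 (by positivity)
  linarith

end Pool.Agent.H45.XR
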